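import Pool.Agent.Y604.SLR3

/-!
# Planar linear hypergraphs without straight-line representation, for all sequences of edge sizes

Let `d 1, ..., d m ≥ 1` be integers, at least `16 k` of which are `≥ 2` and at least `4 k` of which
are `≥ 3`. There is a planar linear hypergraph with `m` edges of sizes exactly `d 1, ..., d m` in
which no more than `m - k` of the edges have a common straight-line representation. For `k = 1` it
has no straight-line representation. With `d i = r` for all `i` and `m = 16 k` one gets, for every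
`r ≥ 3` and every `k`, an `r`-uniform planar linear hypergraph of which at most 15/16 of the edges
can be represented.
-/

set_option autoImplicit false

namespace Pool.Agent.Results.MP_3387b7_co.AllEdgeSizes

/-- A hypergraph with vertex set `V` and a family of nonempty edges indexed by `I`. -/
structure Hypergraph (V I : Type) where
  edge : I → Finset V
  nonempty : ∀ i, (edge i).Nonempty

/-- Linear: two distinct edges have at most one vertex in common. -/
def Hypergraph.Linear {V I : Type} (H : Hypergraph V I) : Prop :=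
  ∀ i j, i ≠ j → ∀ u v, u ∈ H.edge i → u ∈ H.edge j → v ∈ H.edge i → v ∈ H.edge j → u = v

/-- The hypergraph with the same vertices and only the edges with index in `J`. -/
def Hypergraph.sub {V I : Type} (H : Hypergraph V I) (J : Finset I) :
    Hypergraph V {i // i ∈ J} where
  edge i := H.edge i.1
  nonempty i := H.nonempty i.1

/-- The incidence graph: the bipartite graph on `V ⊕ I` in which `v` and `i` are adjacent exactly
when `v ∈ H.edge i`. -/
def Hypergraph.incidence {V I : Type} (H : Hypergraph V I) : SimpleGraph (V ⊕ I) where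
  Adj x y := ∃ v i, v ∈ H.edge i ∧
    ((x = Sum.inl v ∧ y = Sum.inr i) ∨ (x = Sum.inr i ∧ y = Sum.inl v))
  symm := ⟨by
    rintro x y ⟨v, i, h, h1 | h1⟩
    · exact ⟨v, i, h, Or.inr ⟨h1.2, h1.1⟩⟩
    · exact ⟨v, i, h, Or.inl ⟨h1.2, h1.1⟩⟩⟩
  loopless := ⟨by
    rintro x ⟨v, i, h, ⟨h1, h2⟩ | ⟨h1, h2⟩⟩
    · rw [h1] at h2; cases h2
    · rw [h1] at h2; cases h2⟩

/-- `A` is an arc of the plane from `p` to `q`. -/
def IsArc (A : Set (ℝ × ℝ)) (p q : ℝ × ℝ) : Prop :=
  ∃ g : ℝ → ℝ × ℝ, ContinuousOn g (Set.Icc 0 1) ∧ Set.InjOn g (Set.Icc 0 1) ∧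
    g 0 = p ∧ g 1 = q ∧ A = g '' Set.Icc 0 1

/-- A graph is planar: its vertices can be placed at distinct points of the plane and its edges
drawn as arcs between their ends, so that an arc contains no vertex other than its two ends and
the arcs of two distinct edges meet only in vertices. -/
def IsPlanar {X : Type} (G : SimpleGraph X) : Prop :=
  ∃ (pos : X → ℝ × ℝ) (arc : Sym2 X → Set (ℝ × ℝ)),
    Function.Injective pos ∧
    (∀ x y, G.Adj x y → IsArc (arc s(x, y)) (pos x) (pos y)) ∧
    (∀ x y z, G.Adj x y → pos z ∈ arc s(x, y) → z = x ∨ z = y) ∧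
    (∀ e ∈ G.edgeSet, ∀ f ∈ G.edgeSet, e ≠ f → ∀ t, t ∈ arc e → t ∈ arc f → ∃ z, t = pos z)

/-- `p`, `s` form a straight-line representation of `H`: the points `p v` are distinct, every
`s i` is a closed segment of positive length, two distinct segments have at most one common
point, and such a point is `p v` for some `v`, and `p v ∈ s i` exactly when `v ∈ H.edge i`. -/
def StraightLineRep {V I : Type} (H : Hypergraph V I) (p : V → ℝ × ℝ)
    (s : I → Set (ℝ × ℝ)) : Prop :=
  Function.Injective p ∧
  (∀ i, ∃ a b : ℝ × ℝ, a ≠ b ∧ s i = segment ℝ a b) ∧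
  (∀ i j, i ≠ j → (s i ∩ s j).Subsingleton ∧ ∀ t ∈ s i ∩ s j, ∃ v, t = p v) ∧
  (∀ v i, p v ∈ s i ↔ v ∈ H.edge i)

open Pool.Agent.Y604.SLR

/-- a straight drawing of the incidence graph is a plane drawing -/
theorem planar_of_SD {V I : Type} (H : Hypergraph V I) {pos : V ⊕ I → ℝ × ℝ}
    (h : SD H.edge pos) : IsPlanar H.incidence := by
  refine ⟨pos, fun e => Sym2.lift ⟨fun x y => segment ℝ (pos x) (pos y),
    fun x y => segment_symm ℝ _ _⟩ e, h.inj, ?_, ?_, ?_⟩
  · rintro x y ⟨v, i, hv, ⟨rfl, rfl⟩ | ⟨rfl, rfl⟩⟩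
    · exact NoStraightLine.segment_isArc (fun hc => by cases h.inj hc)
    · exact NoStraightLine.segment_isArc (fun hc => by cases h.inj hc)
  · rintro x y z ⟨v, i, hv, ⟨rfl, rfl⟩ | ⟨rfl, rfl⟩⟩ hz
    · exact h.thru i v hv z hz
    · have hz' : pos z ∈ segment ℝ (pos (Sum.inr i)) (pos (Sum.inl v)) := hz
      rw [segment_symm] at hz'
      exact (h.thru i v hv z hz').symm
  · have key : ∀ e ∈ H.incidence.edgeSet, ∃ v i, v ∈ H.edge i ∧
        e = s(Sum.inl v, Sum.inr i) := by
      intro e
      induction e using Sym2.ind with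
      | _ x y =>
        intro he
        rw [SimpleGraph.mem_edgeSet] at he
        obtain ⟨v, i, hv, ⟨rfl, rfl⟩ | ⟨rfl, rfl⟩⟩ := he
        · exact ⟨v, i, hv, rfl⟩
        · exact ⟨v, i, hv, Sym2.eq_swap⟩
    intro e he f hf hef t h1 h2
    obtain ⟨v, i, hv, rfl⟩ := key e he
    obtain ⟨w, j, hw, rfl⟩ := key f hf
    exact h.meet i v hv j w hw (fun hc => hef (by rw [hc.1, hc.2])) t h1 h2

/-- **All sequences of edge sizes.** Let `d i ≥ 1`, at least `16 k` of them `≥ 2` and at least
`4 k` of them `≥ 3`. There is a planar linear hypergraph whose `i`-th edge has exactly `d i`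
vertices, with `∑ d i - 26 k` vertices in all, such that every family of its edges which has a
straight-line representation omits at least `k` edges. -/
theorem result (k m : ℕ) (d : Fin m → ℕ) (h1 : ∀ i, 1 ≤ d i)
    (h2 : 16 * k ≤ (Finset.univ.filter fun i => 2 ≤ d i).card)
    (h3 : 4 * k ≤ (Finset.univ.filter fun i => 3 ≤ d i).card) :
    ∃ (V : Type) (_ : Fintype V) (H : Hypergraph V (Fin m)), (∀ i, (H.edge i).card = d i) ∧
      Fintype.card V + 26 * k = ∑ i, d i ∧ H.Linear ∧ IsPlanar H.incidence ∧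
      ∀ J : Finset (Fin m), (∃ p s, StraightLineRep (H.sub J) p s) → J.card + k ≤ m := by
  obtain ⟨V, _, E, hE, hV, hlin, ⟨pos, hpos⟩, hJ⟩ := main k m d h2 h3
  refine ⟨V, inferInstance, ⟨E, fun i => Finset.card_pos.1 (by rw [hE]; exact h1 i)⟩, hE, hV,
    hlin, planar_of_SD _ hpos, ?_⟩
  rintro J ⟨p, s, h4, h5, h6, h7⟩
  exact hJ J p s h4 h5 h6 h7

end Pool.Agent.Results.MP_3387b7_co.AllEdgeSizes
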